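import Pool.Agent.H78.MIC.ConM

/-!
# Thin labels of a grid with labels with gain of several coordinates

`gnG`: the labels with gain of the coordinates in `Gs`; `gnG_ok`: the conditions. `co_chainG`: the
chain of a new thin label. `co_gnG`: the labels with gain for the cell of the labels of a grid.
`ext_CG`: the joint property of P4 for the cells of a kit whose labels have labels with gain of the
coordinates in `Gs`; `ext_C2`: two coordinates.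
-/

set_option autoImplicit false

namespace Pool.STAT

open Finset MvPolynomial
open Pool.Agent.H49.Ent Pool.Agent.H32.Dense Pool.STK Pool.KS3 Pool.KA Pool.KSAT Pool.PB Pool.GEN
open Pool.K2S Pool.S6C
open Pool.CHT (bet TmH)
open Pool.CHB (chsysB)
open Pool.LBT (ThrOf)
open Pool.LEV (Law)
open Pool.STR (Affn Nw)
open Pool.RLV (TmN)
open Pool.BFL (Pb)
open Pool.P4 (GnL NBT NewLabT UPt GvT HvT NFc1 gvT chok_of_newT)
open Pool.STAT.CLO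

open Classical in
/-- **The labels with gain** of the coordinates in `Gs`. -/
noncomputable def gnG (D : NDat2) (Gs : ℕ → Prop) (pr : ℕ → ℕ) (UD : ℕ → D.Ξ → PN)
    (UL : ℕ → D.Λ × ℕ → PN) : GnL D :=
  ⟨fun u y => if 1 ≤ u ∧ Gs (u - 1) then UD (u - 1) y else 0,
    fun u s => if 1 ≤ u ∧ Gs (u - 1) then UL (u - 1) s else 0, fun u => pr (u - 1)⟩

section

variable {D : NDat2} {Gs : ℕ → Prop} {pr : ℕ → ℕ} {UD : ℕ → D.Ξ → PN} {UL : ℕ → D.Λ × ℕ → PN}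

theorem gnG_UD {l : ℕ} (h : Gs l) (y : D.Ξ) : (gnG D Gs pr UD UL).UD (l + 1) y = UD l y :=
  if_pos ⟨by omega, h⟩

theorem gnG_UL {l : ℕ} (h : Gs l) (s : D.Λ × ℕ) : (gnG D Gs pr UD UL).UL (l + 1) s = UL l s :=
  if_pos ⟨by omega, h⟩

theorem gnG_degD {K : ℕ} (hd : ∀ l, Gs l → ∀ x, (UD l x).totalDegree ≤ K) (u : ℕ) (x : D.Ξ) :
    ((gnG D Gs pr UD UL).UD u x).totalDegree ≤ K := by
  unfold gnG
  dsimp only
  split_ifs with h
  · exact hd _ h.2 x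
  · rw [totalDegree_zero]
    exact Nat.zero_le _

theorem gnG_degL {K : ℕ} (hd : ∀ l, Gs l → ∀ x, (UL l x).totalDegree ≤ K) (u : ℕ)
    (x : D.Λ × ℕ) : ((gnG D Gs pr UD UL).UL u x).totalDegree ≤ K := by
  unfold gnG
  dsimp only
  split_ifs with h
  · exact hd _ h.2 x
  · rw [totalDegree_zero]
    exact Nat.zero_le _

theorem gnG_varD (hd : ∀ l, Gs l → ∀ x, (UD l x).vars ⊆ range (l + 1)) (u : ℕ) (x : D.Ξ) :
    ((gnG D Gs pr UD UL).UD u x).vars ⊆ range u := by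
  unfold gnG
  dsimp only
  split_ifs with h
  · have h1 := hd _ h.2 x
    rwa [Nat.sub_add_cancel h.1] at h1
  · rw [vars_0]
    exact Finset.empty_subset _

theorem gnG_varL (hd : ∀ l, Gs l → ∀ x, (UL l x).vars ⊆ range (l + 1)) (u : ℕ) (x : D.Λ × ℕ) :
    ((gnG D Gs pr UD UL).UL u x).vars ⊆ range u := by
  unfold gnG
  dsimp only
  split_ifs with h
  · have h1 := hd _ h.2 x
    rwa [Nat.sub_add_cancel h.1] at h1
  · rw [vars_0]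
    exact Finset.empty_subset _

/-- The conditions for the labels with gain. -/
theorem gnG_ok {n K J a₀ w₀ z M Q : ℕ} {C₁ : ℝ} {q : D.Ω → ℝ} {R : ℕ → Prop}
    (hR : ∀ u, 1 ≤ u → ¬ R u → ∃ l, u = l + 1 ∧ Gs l)
    (dD : ∀ l, Gs l → ∀ x, (UD l x).totalDegree ≤ K)
    (dL : ∀ l, Gs l → ∀ x, (UL l x).totalDegree ≤ K)
    (vD : ∀ l, Gs l → ∀ x, (UD l x).vars ⊆ range (l + 1))
    (vL : ∀ l, Gs l → ∀ x, (UL l x).vars ⊆ range (l + 1))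
    (deep : ∀ l, Gs l → ∀ i ≤ M, ∀ j ≤ M, D.g i j (l + 1) + Q * z ≤ pr l)
    (own : ∀ l, Gs l → ∀ ω, 0 < q ω →
      |D.X ω (l + 1) - eval (D.X ω) (UD l (D.pt ω))| ≤ 1 / 2 ^ pr l)
    (two : ∀ l, Gs l → ∀ i ≤ M, ∀ j ≤ M, ∀ ω, 0 < q ω → ∀ b : ℕ → ℝ,
      D.NB i j (a₀ + i * z) (l + 1) ω b →
      |eval b (UD l (D.pt ω)) - eval b (UL l (D.wn J w₀ ω))| ≤ 1 / 2 ^ pr l ∧
      |eval b (UD l (D.pt ω)) - eval b (D.Ψ i j ω (l + 1))| ≤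
        Real.exp (C₁ * z) / 2 ^ D.g i j (l + 1)) :
    (gnG D Gs pr UD UL).Ok n K J a₀ w₀ z M Q R C₁ q where
  degD := gnG_degD dD
  degL := gnG_degL dL
  varD := gnG_varD vD
  varL := gnG_varL vL
  deep u u1 _ h i hi j hj := by
    obtain ⟨l, rfl, hl⟩ := hR u u1 h
    show _ ≤ pr (l + 1 - 1)
    rw [Nat.add_sub_cancel]
    exact deep l hl i hi j hj
  own u u1 _ h ω hω := by
    obtain ⟨l, rfl, hl⟩ := hR u u1 h
    rw [gnG_UD hl]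
    show _ ≤ 1 / 2 ^ pr (l + 1 - 1)
    rw [Nat.add_sub_cancel]
    exact own l hl ω hω
  two u u1 _ h i hi j hj ω hω b hb := by
    obtain ⟨l, rfl, hl⟩ := hR u u1 h
    rw [gnG_UD hl, gnG_UL hl]
    show _ ≤ 1 / 2 ^ pr (l + 1 - 1)
    rw [Nat.add_sub_cancel]
    exact (two l hl i hi j hj ω hω b hb).1
  near u u1 _ h i hi j hj ω hω b hb := by
    obtain ⟨l, rfl, hl⟩ := hR u u1 h
    rw [gnG_UD hl]
    exact (two l hl i hi j hj ω hω b hb).2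

end

/-- **The chain of a new thin label.** -/
theorem co_chainG (n K' K₂ K'' S₂ : ℕ) (hK' : 1 ≤ K') : ∃ E : ℕ, 1 ≤ E ∧ ∀ {m J : ℕ}
    {F : Fam m J} {D : GDat F} {c : ℕ → Fin m} {K s₁ : ℕ} {sh : ℕ → ℕ} {a₀ w₀ z x M : ℕ}
    {e : ℕ → ℕ → ℕ} {g : ℕ → ℕ → ℕ → ℕ} {gC : ℕ → ℕ → ℕ → ℕ → ℕ} {B : F.Ω → Prop}
    {Rc : ℕ → ℕ → Type} (ρ : (i j : ℕ) → LnT F → Rc i j) {Gs R : ℕ → Prop} {pr : ℕ → ℕ}
    {UD : ℕ → Pt2 F → PN} {UL : ℕ → Ln2 F × ℕ → PN}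
    {Q Q' i j l A : ℕ} {η' : ℝ} {q : F.Ω → ℝ},
    (∀ u, 1 ≤ u → ¬ R u → ∃ l, u = l + 1 ∧ Gs l) →
    D.Ok c n K K' s₁ sh a₀ w₀ z M e g B →
    (∀ k, Gs k → CoL D c k K₂ a₀ w₀ z x M S₂ (gC k) (pr k) (UD k) (UL k) B) →
    (∀ ω, 0 ≤ q ω) → (∀ ω, 0 < q ω → B ω) →
    1 ≤ x → i ≤ M → j ≤ M → w₀ + j * z ≤ J → l < n → (∀ k, Gs k → k < n) → Q * z ≤ Q' * x →
    (∀ l₀, Gs l₀ → ∀ k < l₀, gC l₀ i j k ≤ g i j k - sh (k + 1) + 3 * x) →
    (∀ l₀, Gs l₀ → g i j l₀ - sh (l₀ + 1) ≤ gC l₀ i j l₀ + x) →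
    (∀ l₀, Gs l₀ → g i j l₀ - sh (l₀ + 1) + Q' * x ≤ pr l₀) →
    (∀ k, 1 ≤ k → k ≤ l + 1 → E ^ (n + 1) * x ≤ g i j (k - 1) - sh k) →
    NewLabT (D.nd c n sh w₀ z M g ρ) (gnG (D.nd c n sh w₀ z M g ρ) Gs pr UD UL) J a₀ w₀ z Q
      R i j (l + 1) A K'' η' q →
    ∃ (B' : F.Ω → Prop) (e' : ℕ), Sub B' B ∧ η' ≤ Pb q B' ∧
      ChN F c (l + 1) (fun _ => max (max K' K₂) K'') (a₀ + i * z) (w₀ + j * z) e'
        (gvT (fun _ _ k => g i j (k - 1) - sh k) R x Q' 0 0 l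
          (g i j l - sh (l + 1) + A * z) E) B' := by
  classical
  obtain ⟨E, hE, key⟩ := chok_of_newT n (max K' K₂) K'' ((S₂ : ℝ) + 1)
  refine ⟨E, hE, ?_⟩
  intro m J F D c K s₁ sh a₀ w₀ z x M e g gC B Rc ρ Gs R pr UD UL Q Q' i j l A η' q hR hD hC hq0
    hqB hx hi hj hwJ hl hGn hQ hbx hnr hpr hbig hN
  obtain ⟨D', hD'⟩ : ∃ D' : NDat2, D' = D.nd c n sh w₀ z M g ρ := ⟨_, rfl⟩
  -- the cell at the point of the grid
  obtain ⟨C', hC'⟩ : ∃ C' : CDat2 F n, C' = (D.atP i j).cd n fun _ _ _ => PUnit.unit := ⟨_, rfl⟩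
  have hcnd : C'.Cnd2 (cx F fun i => c (i - 1)) (pc c) K' (a₀ + i * z) (w₀ + j * z) x 0
      (fun _ _ k => g i j (k - 1) - sh k) B := by
    rw [hC']
    exact (hD.atP hi hj x).cnd hK' _
  have hcnd' := cnd2_monoK hcnd (le_max_left K' K₂)
  obtain ⟨U', hU'⟩ : ∃ U' : GnL (C'.nd2 (cx F fun i => c (i - 1)) (pc c) (w₀ + j * z) x 0
      (fun _ _ k => g i j (k - 1) - sh k)), U' = gnG _ Gs pr UD (fun k (s : Ln2 F × ℕ) =>
        UL k ((s.1.1, s.1.2.1, s.1.2.2 / 2 ^ (w₀ + j * z - w₀)),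
          s.2 / 2 ^ (w₀ + j * z - w₀))) :=
    ⟨_, rfl⟩
  have hw0J : w₀ ≤ w₀ + j * z := Nat.le_add_right _ _
  have hslm : ∀ ω, (((slam F (w₀ + j * z) ω).1, (slam F (w₀ + j * z) ω).2.1,
      (slam F (w₀ + j * z) ω).2.2 / 2 ^ (w₀ + j * z - w₀)) : Ln2 F) = slam F w₀ ω :=
    fun ω => (slam_coarse F hw0J hwJ ω).symm
  have hT1 : ∀ ω, F.T1 (w₀ + j * z) ω / 2 ^ (w₀ + j * z - w₀) = F.T1 w₀ ω := by
    intro ω
    unfold Fam.T1
    rw [Nat.div_div_eq_div_mul, ← pow_add]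
    congr 2
    omega
  have hPs : ∀ ω k, 1 ≤ k → k ≤ n → C'.Ps2 0 0 ω k = D.PS i j (D.zS i j (ptr F J ω)) k := by
    intro ω k _ _
    rw [hC']
    rfl
  have hUD : ∀ l₀, Gs l₀ → ∀ ω, U'.UD (l₀ + 1) (ptr F J ω) = UD l₀ (ptr F J ω) := fun l₀ h ω => by
    rw [hU']
    exact gnG_UD h _
  have hUL : ∀ l₀, Gs l₀ → ∀ ω, U'.UL (l₀ + 1) (slam F (w₀ + j * z) ω, F.T1 (w₀ + j * z) ω) =
      UL l₀ (slam F w₀ ω, F.T1 w₀ ω) := by
    intro l₀ h ω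
    rw [hU']
    refine (gnG_UL h _).trans ?_
    show UL l₀ ((_, _, _), _) = _
    rw [hslm ω, hT1 ω]
  have e00 : a₀ + i * z + 0 * x = a₀ + i * z := by rw [Nat.zero_mul, Nat.add_zero]
  have w00 : w₀ + j * z + 0 * x = w₀ + j * z := by rw [Nat.zero_mul, Nat.add_zero]
  have h2x : (1 : ℝ) ≤ 2 ^ (3 * x) := one_le_pow₀ (by norm_num)
  -- the two facts on the boxes
  have htwo : ∀ l₀, Gs l₀ → ∀ ω, B ω → ∀ b : ℕ → ℝ, C'.Nb2 (cx F fun i => c (i - 1))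
      (fun _ _ k => g i j (k - 1) - sh k) 0 0 (a₀ + i * z + 0 * x) (l₀ + 1) ω b →
      |eval b (UD l₀ (ptr F J ω)) - eval b (UL l₀ (slam F w₀ ω, F.T1 w₀ ω))| ≤ 1 / 2 ^ pr l₀ ∧
      |eval b (UD l₀ (ptr F J ω)) - eval b (D.PS i j (D.zS i j (ptr F J ω)) (l₀ + 1))| ≤
        2 ^ (S₂ * x) / 2 ^ gC l₀ i j l₀ := by
    intro l₀ hG ω hω b hb
    have hl₀ := hGn l₀ hG
    refine (hC l₀ hG).two i hi j hj ω hω b ?_ fun u u1 u2 => ?_
    · have h1 := hb.1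
      rw [e00, hcnd.X_zero] at h1
      exact h1
    · have h1 := hb.2 u u1 (by omega)
      rw [hPs ω u u1 (by omega)] at h1
      refine h1.trans ?_
      rw [div_le_div_iff₀ (by positivity) (by positivity), one_mul, ← pow_add]
      refine pow_le_pow_right₀ (by norm_num) ?_
      have h2 := hbx l₀ hG (u - 1) (by omega)
      have h3 : u - 1 + 1 = u := by omega
      rw [h3] at h2
      beta_reduce
      omega
  have hUPt : ∀ ω, B ω → UPt C' U' R J (a₀ + i * z) 0 0 Q' l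
      ((S₂ : ℝ) + 1) ω := by
    intro ω hω
    refine ⟨fun k k1 _ hRk => ?_, fun k k1 _ hRk b hb => ?_, fun k k1 _ hRk b hb => ?_⟩
    · obtain ⟨l₀, rfl, hG⟩ := hR k k1 hRk
      rw [hUD l₀ hG ω]
      have h1 := (hC l₀ hG).own ω hω
      have h2 : (cx F (fun i => c (i - 1)) ω (l₀ + 1) : ℝ) = F.x ω (c l₀) := if_neg (by omega)
      rw [h2]
      exact h1.trans (inv_mono (by
        show g i j (l₀ + 1 - 1) - sh (l₀ + 1) + Q' * x ≤ pr l₀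
        rw [Nat.add_sub_cancel]
        exact hpr l₀ hG))
    · obtain ⟨l₀, rfl, hG⟩ := hR k k1 hRk
      rw [hUD l₀ hG ω, hUL l₀ hG ω]
      exact (htwo l₀ hG ω hω b hb).1.trans (inv_mono (by
        show g i j (l₀ + 1 - 1) - sh (l₀ + 1) + Q' * x ≤ pr l₀
        rw [Nat.add_sub_cancel]
        exact hpr l₀ hG))
    · obtain ⟨l₀, rfl, hG⟩ := hR k k1 hRk
      have hl₀ := hGn l₀ hG
      rw [hUD l₀ hG ω, hPs ω (l₀ + 1) (by omega) (by omega)]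
      refine (htwo l₀ hG ω hω b hb).2.trans ?_
      have h1 : (2 : ℝ) ^ (S₂ * x) / 2 ^ gC l₀ i j l₀ ≤
          2 ^ ((S₂ + 1) * x) / 2 ^ (g i j l₀ - sh (l₀ + 1)) := by
        rw [div_le_div_iff₀ (by positivity) (by positivity), ← pow_add, ← pow_add]
        refine pow_le_pow_right₀ (by norm_num) ?_
        have : (S₂ + 1) * x = S₂ * x + x := by ring
        have h5 := hnr l₀ hG
        omega
      refine h1.trans ?_
      show _ ≤ Real.exp ((↑S₂ + 1) * ↑x) / 2 ^ (g i j (l₀ + 1 - 1) - sh (l₀ + 1))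
      rw [Nat.add_sub_cancel]
      refine div_le_div_of_nonneg_right ?_ (by positivity)
      have h2 : (2 : ℝ) ≤ Real.exp 1 := by
        have := Real.add_one_le_exp (1 : ℝ)
        linarith
      calc (2 : ℝ) ^ ((S₂ + 1) * x) ≤ Real.exp 1 ^ ((S₂ + 1) * x) :=
            pow_le_pow_left₀ (by norm_num) h2 _
        _ = Real.exp ((S₂ + 1) * x) := by
            rw [← Real.exp_nat_mul]
            push_cast
            ring_nf
  -- the new label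
  obtain ⟨Gn, Hn, hGn', hHn, hP⟩ := hN
  have e1 : (D.nd c n sh w₀ z M g ρ).g i j (l + 1) = g i j l - sh (l + 1) := by
    have := CDat2.nd2_g (D.cd n ρ) (cx F fun i => c (i - 1)) (pc c) w₀ z M
      (fun i j l => g i j (l - 1) - sh l) (i := i) (j := j) (l := l + 1) (by omega)
    exact this
  rw [e1] at hP
  obtain ⟨B', hB'⟩ : ∃ B' : F.Ω → Prop, B' = fun ω => 0 < q ω ∧
      |cx F (fun i => c (i - 1)) ω (l + 1) - eval (cx F (fun i => c (i - 1)) ω)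
        (Gn (ptr F J ω))| ≤ 1 / 2 ^ (g i j l - sh (l + 1) + A * z) ∧ ∀ b : ℕ → ℝ,
        NBT (D.nd c n sh w₀ z M g ρ) (gnG (D.nd c n sh w₀ z M g ρ) Gs pr UD UL) z Q
          R i j (a₀ + i * z) (l + 1) ω b →
        |eval b (Gn (ptr F J ω)) - eval b (Hn (slam F w₀ ω, F.T1 (w₀ + j * z) ω))| ≤
          1 / 2 ^ (g i j l - sh (l + 1) + A * z) := ⟨_, rfl⟩
  have hB2 : ∀ ω, B' ω → 0 < q ω ∧
      |cx F (fun i => c (i - 1)) ω (l + 1) - eval (cx F (fun i => c (i - 1)) ω)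
        (Gn (ptr F J ω))| ≤ 1 / 2 ^ (g i j l - sh (l + 1) + A * z) ∧ ∀ b : ℕ → ℝ,
        NBT (D.nd c n sh w₀ z M g ρ) (gnG (D.nd c n sh w₀ z M g ρ) Gs pr UD UL) z Q
          R i j (a₀ + i * z) (l + 1) ω b →
        |eval b (Gn (ptr F J ω)) - eval b (Hn (slam F w₀ ω, F.T1 (w₀ + j * z) ω))| ≤
          1 / 2 ^ (g i j l - sh (l + 1) + A * z) := fun ω h => by rw [hB'] at h; exact h
  have hBB : ∀ ω, B' ω → B ω := fun ω h => hqB ω (hB2 ω h).1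
  obtain ⟨e', he'⟩ := key (a₀ := a₀ + i * z) (w₀ := w₀ + j * z) (z := x) (M := 0) (Q := Q')
    (R := R) (A := B) U' hcnd' c (fun ω _ k _ => if_neg (by omega)) hx (i := 0)
    (j := 0) (l := l) (P := g i j l - sh (l + 1) + A * z) le_rfl le_rfl (by rw [w00]; exact hwJ)
    hl
    (fun k y => by
      rw [hU']
      exact gnG_degD (fun k hk x => ((hC k hk).dD x).trans (le_max_right _ _)) k y)
    (fun k y => by
      rw [hU']
      exact gnG_degL (fun k hk x => ((hC k hk).dL _).trans (le_max_right _ _)) k y)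
    (fun k y => by
      rw [hU']
      exact gnG_varD (fun k hk x => (hC k hk).vD x) k y)
    (fun k y => by
      rw [hU']
      exact gnG_varL (fun k hk x => (hC k hk).vL _) k y)
    (Gn := Gn) (Hn := fun s => Hn ((s.1.1, s.1.2.1, s.1.2.2 / 2 ^ (w₀ + j * z - w₀)), s.2))
    hGn' (fun s => hHn _) (B := B') hBB (fun ω h => hUPt ω (hBB ω h))
    (fun ω h => (hB2 ω h).2.1)
    (fun ω h b hb => by
      show |eval b (Gn (ptr F J ω)) - eval b (Hn ((_, _, _), F.T1 (w₀ + j * z + 0 * x) ω))| ≤ _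
      rw [hslm ω, w00]
      refine (hB2 ω h).2.2 b ⟨?_, fun u u1 u2 => ⟨fun hRu => ?_, fun hRu => ?_⟩⟩
      · have h1 := hb.1
        rw [e00] at h1
        exact h1
      · have h1 := (hb.2 u u1 u2).1 hRu
        rw [CDat2.nd2_Ψ C' _ _ _ _ _ _ le_rfl le_rfl u1 (by omega),
          CDat2.nd2_g C' _ _ _ _ _ _ u1, hPs ω u u1 (by omega)] at h1
        have e2 : (D.nd c n sh w₀ z M g ρ).g i j u = g i j (u - 1) - sh u :=
          CDat2.nd2_g (D.cd n ρ) (cx F fun i => c (i - 1)) (pc c) w₀ z M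
            (fun i j l => g i j (l - 1) - sh l) u1
        have e3 : (D.nd c n sh w₀ z M g ρ).Ψ i j ω u = D.PS i j (D.zS i j (ptr F J ω)) u :=
          CDat2.nd2_Ψ (D.cd n ρ) (cx F fun i => c (i - 1)) (pc c) w₀ z M
            (fun i j l => g i j (l - 1) - sh l) hi hj u1 (by omega) ω
        rw [e2, e3]
        exact h1
      · have h1 := (hb.2 u u1 u2).2 hRu
        obtain ⟨l₀, rfl, hG⟩ := hR u u1 hRu
        have h2 : U'.UD (l₀ + 1) ((C'.nd2 (cx F fun i => c (i - 1)) (pc c) (w₀ + j * z) x 0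
            fun _ _ k => g i j (k - 1) - sh k).pt ω) = UD l₀ (ptr F J ω) := hUD l₀ hG ω
        rw [h2, CDat2.nd2_g C' _ _ _ _ _ _ u1] at h1
        have e2 : (D.nd c n sh w₀ z M g ρ).g i j (l₀ + 1) = g i j (l₀ + 1 - 1) - sh (l₀ + 1) :=
          CDat2.nd2_g (D.cd n ρ) (cx F fun i => c (i - 1)) (pc c) w₀ z M
            (fun i j l => g i j (l - 1) - sh l) u1
        have h3 : (gnG (D.nd c n sh w₀ z M g ρ) Gs pr UD UL).UD (l₀ + 1)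
            ((D.nd c n sh w₀ z M g ρ).pt ω) = UD l₀ (ptr F J ω) := gnG_UD hG _
        rw [e2, h3]
        exact h1.trans (inv_mono (Nat.add_le_add_left hQ _)))
    (fun k k1 k2 => hbig k k1 (by omega))
    (((hbig (l + 1) (by omega) le_rfl).trans (by rw [Nat.add_sub_cancel])).trans
      (Nat.le_add_right _ _))
  rw [e00, w00] at he'
  refine ⟨B', e', hBB, hP.trans ?_, _, _, he'⟩
  unfold Pb
  change ∑ ω : F.Ω, _ ≤ _
  refine Finset.sum_le_sum fun ω _ => ?_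
  rcases (hq0 ω).eq_or_lt with h0 | h0
  · rw [← h0]
    simp
  · split_ifs with h1 h2
    · exact le_rfl
    · refine absurd ?_ h2
      rw [hB']
      exact ⟨h0, h1.1, fun b hb => h1.2 b hb⟩
    · exact h0.le
    · exact le_rfl

variable {Θ : Type*} {I : ℝ → Θ → Prop} {m n₀ : ℕ}

/-- The labels with gain for the cell of the labels of a grid. -/
theorem co_gnG {m J n K K' K₂ K₃ s₁ a₀ w₀ z x M S₂ Q : ℕ} {F : Fam m J} {D : GDat F}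
    {c : ℕ → Fin m} {sh : ℕ → ℕ} {e : ℕ → ℕ → ℕ} {g : ℕ → ℕ → ℕ → ℕ}
    {gC : ℕ → ℕ → ℕ → ℕ → ℕ} {B : F.Ω → Prop} {Rc : ℕ → ℕ → Type}
    (ρ : (i j : ℕ) → LnT F → Rc i j) {Gs R : ℕ → Prop} {pr : ℕ → ℕ} {UD : ℕ → Pt2 F → PN}
    {UL : ℕ → Ln2 F × ℕ → PN} {q : F.Ω → ℝ} {C₁ : ℝ}
    (hR : ∀ u, 1 ≤ u → ¬ R u → ∃ l, u = l + 1 ∧ Gs l)
    (hK' : 1 ≤ K') (hD : D.Ok c n K K' s₁ sh a₀ w₀ z M e g B)
    (hC : ∀ k, Gs k → CoL D c k K₂ a₀ w₀ z x M S₂ (gC k) (pr k) (UD k) (UL k) B)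
    (hqB : ∀ ω, 0 < q ω → B ω) (hGn : ∀ k, Gs k → k < n)
    (hK : K₂ ≤ K₃) (hxz : x ≤ z) (hC₁ : (S₂ : ℝ) + 1 ≤ C₁)
    (hbx : ∀ l₀, Gs l₀ → ∀ i ≤ M, ∀ j ≤ M, ∀ k < l₀, gC l₀ i j k ≤ g i j k - sh (k + 1) + 3 * x)
    (hnr : ∀ l₀, Gs l₀ → ∀ i ≤ M, ∀ j ≤ M, g i j l₀ - sh (l₀ + 1) ≤ gC l₀ i j l₀ + x)
    (hpr : ∀ l₀, Gs l₀ → ∀ i ≤ M, ∀ j ≤ M, g i j l₀ - sh (l₀ + 1) + Q * z ≤ pr l₀) :
    (gnG (D.nd c n sh w₀ z M g ρ) Gs pr UD UL).Ok n K₃ J a₀ w₀ z M Q R C₁ q := by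
  have hcnd := hD.cnd hK' ρ
  have e1 : ∀ i j u, 1 ≤ u → (D.nd c n sh w₀ z M g ρ).g i j u = g i j (u - 1) - sh u :=
    fun i j u h => CDat2.nd2_g (D.cd n ρ) (cx F fun i => c (i - 1)) (pc c) w₀ z M
      (fun i j l => g i j (l - 1) - sh l) h
  have e2 : ∀ i ≤ M, ∀ j ≤ M, ∀ u, 1 ≤ u → u ≤ n → ∀ ω,
      (D.nd c n sh w₀ z M g ρ).Ψ i j ω u = D.PS i j (D.zS i j (ptr F J ω)) u :=
    fun i hi j hj u h1 h2 ω => CDat2.nd2_Ψ (D.cd n ρ) (cx F fun i => c (i - 1)) (pc c) w₀ z M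
      (fun i j l => g i j (l - 1) - sh l) hi hj h1 h2 ω
  refine gnG_ok (D := D.nd c n sh w₀ z M g ρ) hR (fun l₀ h y => ((hC l₀ h).dD y).trans hK)
    (fun l₀ h y => ((hC l₀ h).dL y).trans hK) (fun l₀ h => (hC l₀ h).vD)
    (fun l₀ h => (hC l₀ h).vL) (fun l₀ h i hi j hj => ?_) (fun l₀ h ω hω => ?_)
    (fun l₀ h i hi j hj ω hω b hb => ?_)
  · rw [e1 i j _ (by omega), Nat.add_sub_cancel]
    exact hpr l₀ h i hi j hj
  · have h1 := (hC l₀ h).own ω (hqB ω hω)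
    have h2 : (cx F (fun i => c (i - 1)) ω (l₀ + 1) : ℝ) = F.x ω (c l₀) := if_neg (by omega)
    rw [← h2] at h1
    exact h1
  · have hl₀ := hGn l₀ h
    have h1 := (hC l₀ h).two i hi j hj ω (hqB ω hω) b (by
      have h1 := hb.1
      have h2 : (D.nd c n sh w₀ z M g ρ).X ω 0 = F.t ω := hcnd.X_zero ω
      rw [h2] at h1
      exact h1) fun u u1 u2 => by
      have h1 := hb.2 u u1 (by omega)
      rw [e1 i j u u1, e2 i hi j hj u u1 (by omega) ω] at h1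
      refine h1.trans ?_
      rw [div_le_div_iff₀ (by positivity) (by positivity), one_mul, ← pow_add]
      refine pow_le_pow_right₀ (by norm_num) ?_
      have h2 := hbx l₀ h i hi j hj (u - 1) (by omega)
      have h3 : u - 1 + 1 = u := by omega
      rw [h3] at h2
      omega
    refine ⟨h1.1, ?_⟩
    rw [e1 i j _ (by omega), Nat.add_sub_cancel, e2 i hi j hj _ (by omega) (by omega) ω]
    refine h1.2.trans ?_
    have h3 : (2 : ℝ) ^ (S₂ * x) / 2 ^ gC l₀ i j l₀ ≤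
        2 ^ ((S₂ + 1) * z) / 2 ^ (g i j l₀ - sh (l₀ + 1)) := by
      rw [div_le_div_iff₀ (by positivity) (by positivity), ← pow_add, ← pow_add]
      refine pow_le_pow_right₀ (by norm_num) ?_
      have h4 := hnr l₀ h i hi j hj
      have h5 : (S₂ + 1) * z = S₂ * z + z := by ring
      have h6 : S₂ * x ≤ S₂ * z := Nat.mul_le_mul_left _ hxz
      omega
    refine h3.trans (div_le_div_of_nonneg_right ?_ (by positivity))
    have h2 : (2 : ℝ) ≤ Real.exp 1 := by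
      have := Real.add_one_le_exp (1 : ℝ)
      linarith
    calc (2 : ℝ) ^ ((S₂ + 1) * z) ≤ Real.exp 1 ^ ((S₂ + 1) * z) :=
          pow_le_pow_left₀ (by norm_num) h2 _
      _ = Real.exp ((S₂ + 1) * z) := by
          rw [← Real.exp_nat_mul]
          push_cast
          ring_nf
      _ ≤ _ := Real.exp_le_exp.2 (mul_le_mul_of_nonneg_right hC₁ (Nat.cast_nonneg z))

/-- **The joint property of the cells with labels with gain** of the coordinates in `Gs`, the other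
coordinates are rough. -/
theorem ext_CG (hI : MonoI I) {S : PCl m} (hS : TmH S) (Kt : KitP m Θ n₀)
    (hml : ∀ p, ∀ l < n₀ + 1, Kt.ml p l = 1) {T' : ℝ}
    (fcel : ∀ ε' : ℝ, 0 < ε' → EvP I fun p =>
      CellL (n₀ + 1) (Kt.L p) ε' T' (Kt.y p) (Kt.X p) (Kt.la p) (Kt.ml p))
    {K' s₁ : ℕ} {sh : ℕ → ℕ} (hK' : 1 ≤ K') {K₂ S₂ : ℕ} {Gs R : ℕ → Prop}
    (hR : ∀ u, 1 ≤ u → (R u ↔ ¬ Gs (u - 1))) (hGs : ∀ l, Gs l → l < n₀)
    (hW : ∀ l, Gs l → ∀ p N M θ (J : ℕ) (F : Fam m J) (D : GDat F) (A : F.Ω → Prop),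
      Kt.W p N M θ J F D A → Kt.Wco l K₂ S₂ p N M θ J F D A)
    {be P : Θ → List (Fin m) × Fin m → ℝ → ℝ → ℝ}
    (hP : ∀ p, ThrOf (chsysB m none (be p)) S (P p))
    (hLβ : ∀ p, ∀ l < n₀, ¬ Gs l → ∀ a w : ℝ, 0 ≤ w → w ≤ a → a ≤ 1 →
      Kt.L p l a w ≤ bet (be p) (Kt.cs p) l a w)
    (hgain : ∀ l, Gs l → EvP I fun p => ∀ a w : ℝ, (Kt.y p).1 ≤ w →
      w ≤ (Kt.y p).1 + Kt.X p / 16 →
      (Kt.y p).1 + (Kt.y p).2 ≤ a → a ≤ (Kt.y p).1 + (Kt.y p).2 + Kt.X p / 16 →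
      Kt.L p l a w + Kt.X p / 32 ≤ bet (be p) (Kt.cs p) l a w)
    (fiso : ∀ l ≤ n₀, ¬ Gs l → ∀ ε' : ℝ, 0 < ε' → EvP I fun p => ∀ z : ℝ × ℝ,
      dist z (Kt.y p) ≤ Kt.X p →
      Nw (bet (P p) (Kt.cs p) l) z ≤ Nw (Kt.L p l) z + ε' * Kt.X p)
    {PB : ℕ → Prop} {x' : ℝ}
    (hnfc : ∃ C₄ : ℝ, ∀ C₁ ≥ C₄, ∀ B : ℕ, 1 ≤ B → PB B → ∀ M : ℕ, EvQ I fun N θ p =>
      Kt.FldN S K' s₁ sh M N θ p fun G J F D q => ∀ gam' : ℕ → ℝ, 0 ≤ gam' (n₀ + 1) →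
        |gamS (n₀ + 1) (Kt.la p) (Kt.ml p) (n₀ + 1) - gam' (n₀ + 1)| * M ≤ 1 →
        NFc1 (Kt.nd p N M θ G F D) G.n (up G.ζ J) G.M B gam' x' C₁ q) :
    ∃ C₄ : ℝ, ∀ C₁ ≥ C₄, ∀ B : ℕ, 1 ≤ B → PB B → ∀ (M Q K'' : ℕ) (η' κ : ℝ), 0 < η' → 0 < κ →
      EvQ I fun N θ p => Kt.FldN S K' s₁ sh M N θ p fun G J F D q =>
        (XP4 (max K' K₂) 1 R x').nb B (lamS (n₀ + 1) (Kt.ml p))
          (gamS (n₀ + 1) (Kt.la p) (Kt.ml p)) G.n J (up G.α J) (up G.ϖ J) (up G.ζ J) G.M Q K'' η'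
          κ C₁ (Kt.nd p N M θ G F D) q := by
  classical
  have hR' : ∀ u, 1 ≤ u → ¬ R u → ∃ l, u = l + 1 ∧ Gs l := fun u u1 hu => by
    rw [hR u u1, not_not] at hu
    exact ⟨u - 1, by omega, hu⟩
  have hRl : ∀ l, R (l + 1) ↔ ¬ Gs l := fun l => by
    have h1 := hR (l + 1) (by omega)
    rwa [Nat.add_sub_cancel] at h1
  obtain ⟨C₄, hnfc⟩ := hnfc
  refine ⟨max C₄ (S₂ + 1), fun C₁ hC₁ B hB hPB M Q K'' η' κ hη hκ => ?_⟩
  have c4 : C₄ ≤ C₁ := (le_max_left _ _).trans hC₁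
  have cS : (S₂ : ℝ) + 1 ≤ C₁ := (le_max_right _ _).trans hC₁
  obtain ⟨Λ, hΛ⟩ := exists_nat_ge (T' + 3)
  obtain ⟨V, hV⟩ := exists_nat_ge (4 * T' + 2)
  obtain ⟨E, hE, hch⟩ := co_chainG (n₀ + 1) K' K₂ K'' S₂ hK'
  obtain ⟨Ee, hEe⟩ : ∃ Ee, Ee = E ^ (n₀ + 1 + 1) := ⟨_, rfl⟩
  have hEe1 : 1 ≤ Ee := by rw [hEe]; exact Nat.one_le_pow _ _ hE
  obtain ⟨Sm, hSm⟩ : ∃ Sm, ∀ k ≤ n₀ + 1, sh k ≤ Sm :=
    ⟨∑ k ∈ range (n₀ + 2), sh k, fun k hk => Finset.single_le_sum (f := sh)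
      (fun _ _ => Nat.zero_le _) (mem_range.2 (by omega))⟩
  obtain ⟨N₁, hN₁⟩ := exists_nat_ge (4 * (T' + 2))
  obtain ⟨N₂, hN₂⟩ := exists_nat_ge (8 * ((1 : ℕ) + 2) * (T' + 2))
  obtain ⟨N₀, hN₀⟩ : ∃ N₀, N₀ = max (max N₁ N₂) (max (64 * (2 * Q + 3)) 1) := ⟨_, rfl⟩
  obtain ⟨θ₀, hθ₀⟩ : ∃ θ₀ : ℝ, θ₀ = min (1 / (128 * ((V : ℝ) + 1))) (1 / (512 * (Ee : ℝ))) :=
    ⟨_, rfl⟩
  have hEe0 : (0 : ℝ) < Ee := by exact_mod_cast hEe1
  have hθ₀0 : 0 < θ₀ := by rw [hθ₀]; exact lt_min (by positivity) (by positivity)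
  have hεp : ∀ N : ℕ, (0 : ℝ) < 1 / (512 * (V + 1) * (N * (M + 4)) + 1) := fun N => by positivity
  have fiso' : EvQ I fun N θ p => ∀ l < n₀ + 1, ¬ Gs l → ∀ z : ℝ × ℝ,
      dist z (Kt.y p) ≤ Kt.X p → Nw (bet (P p) (Kt.cs p) l) z ≤
        Nw (Kt.L p l) z + 1 / (512 * (V + 1) * (N * (M + 4)) + 1) * Kt.X p :=
    EvQ.of_evP fun N => evP_lt hI (n₀ + 1) fun l hl => by
      by_cases h : Gs l
      · exact ⟨1, one_pos, fun _ _ h' => absurd h h'⟩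
      · exact (fiso l (by omega) h _ (hεp N)).mono fun _ hp _ => hp
  have hgain' : EvP I fun p => ∀ l < n₀, Gs l → ∀ a w : ℝ, (Kt.y p).1 ≤ w →
      w ≤ (Kt.y p).1 + Kt.X p / 16 →
      (Kt.y p).1 + (Kt.y p).2 ≤ a → a ≤ (Kt.y p).1 + (Kt.y p).2 + Kt.X p / 16 →
      Kt.L p l a w + Kt.X p / 32 ≤ bet (be p) (Kt.cs p) l a w :=
    evP_lt hI n₀ fun l hl => by
      by_cases h : Gs l
      · exact (hgain l h).mono fun _ hp _ => hp
      · exact ⟨1, one_pos, fun _ _ h' => absurd h' h⟩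
  have hcel : EvQ I fun N θ p => CellL (n₀ + 1) (Kt.L p)
      (1 / (512 * (V + 1) * (N * (M + 4)) + 1)) T' (Kt.y p) (Kt.X p) (Kt.la p) (Kt.ml p) :=
    EvQ.of_evP fun N => fcel _ (hεp N)
  have key := ((((tmU_P hI hS Kt fcel (K' := K') (s₁ := s₁) (sh := sh) hκ M).and hI
    (hnfc C₁ c4 B hB hPB M)).and hI (hcel.and hI fiso')).and hI
    ((EvQ.of_evP fun _ => hgain').and hI (iso_num hI Kt hml fcel hΛ sh 0 0 M one_pos))).and hI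
    (EvQ.self I N₀ (θ₀ := θ₀) hθ₀0 (ε := fun N _ => 1) (fun N _ _ => one_pos))
  refine key.mono ?_
  rintro N θ p ⟨⟨⟨⟨ptm, pnfc⟩, hL, hPW⟩, pg, -, hζ0, hnum⟩, hN, hθ, hθ1, -⟩ b e hnear
  obtain ⟨ε, hε⟩ : ∃ ε : ℝ, ε = 1 / (512 * (V + 1) * (N * (M + 4)) + 1) := ⟨_, rfl⟩
  rw [← hε] at hL hPW
  have hε0 : 0 < ε := by rw [hε]; exact hεp N
  have hNN1 : N₁ ≤ N := (by rw [hN₀]; exact (le_max_left _ _).trans (le_max_left _ _) :
    N₁ ≤ N₀).trans hN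
  have hNN2 : N₂ ≤ N := (by rw [hN₀]; exact (le_max_right _ _).trans (le_max_left _ _) :
    N₂ ≤ N₀).trans hN
  have hNQ : 64 * (2 * Q + 3) ≤ N := (by
    rw [hN₀]
    exact (le_max_left _ _).trans (le_max_right _ _) : 64 * (2 * Q + 3) ≤ N₀).trans hN
  have hN1 : 1 ≤ N := (by rw [hN₀]; exact (le_max_right _ _).trans (le_max_right _ _) :
    1 ≤ N₀).trans hN
  have hNT : 4 * (T' + 2) ≤ N := hN₁.trans (by exact_mod_cast hNN1)
  have hNC : 8 * ((1 : ℕ) + 2) * (T' + 2) ≤ (N : ℝ) := hN₂.trans (by exact_mod_cast hNN2)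
  have hV0 : (0 : ℝ) ≤ V := Nat.cast_nonneg V
  have hθV : θ ≤ 1 / (128 * (V + 1)) := hθ1.trans (by rw [hθ₀]; exact min_le_left _ _)
  have hθE : 512 * (Ee : ℝ) * θ ≤ 1 := by
    have h1 : θ ≤ 1 / (512 * Ee) := hθ1.trans (by rw [hθ₀]; exact min_le_right _ _)
    rw [le_div_iff₀ (by positivity)] at h1
    linarith only [h1]
  have hθ16 : θ ≤ 1 / 16 := by
    refine hθV.trans (one_div_le_one_div_of_le (by norm_num) ?_)
    linarith only [hV0]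
  have hX := hL.pos
  obtain ⟨ζ', hζ'⟩ : ∃ ζ', ζ' = msh (Kt.X p) N M / (8 * (V + 1)) := ⟨_, rfl⟩
  have hζ'0 : 0 < ζ' := by rw [hζ']; positivity
  have hζ'm : ζ' * (8 * (V + 1)) = msh (Kt.X p) N M := by
    rw [hζ']
    field_simp
  have hζ'1 : ζ' ≤ msh (Kt.X p) N M := by
    have := mul_nonneg hζ'0.le hV0
    linarith only [hζ'm, this, hζ'0]
  have hεX : ε * Kt.X p ≤ ζ' / 64 := by
    have h1 : ε ≤ 1 / (512 * (V + 1) * (N * (M + 4)) + 1) := by rw [hε]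
    rw [le_div_iff₀ (by positivity)] at h1
    have e1 : N * ((M + 4) * msh (Kt.X p) N M) = Kt.X p := msh_mul hN1
    have h2 : ε * (512 * (V + 1) * (N * (M + 4))) ≤ 1 := by linarith only [h1, hε0]
    have h3 := mul_le_mul_of_nonneg_right h2 hζ'0.le
    have h4 : ε * (512 * (V + 1) * (N * (M + 4))) * ζ' =
        64 * (ε * (N * ((M + 4) * (ζ' * (8 * (V + 1)))))) := by ring
    rw [h4, hζ'm, e1] at h3
    linarith only [h3]
  have hθx : θ * msh (Kt.X p) N M ≤ ζ' / 16 := by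
    rw [le_div_iff₀ (by positivity)] at hθV
    have h3 := mul_le_mul_of_nonneg_right hθV hζ'0.le
    have h4 : θ * (128 * (V + 1)) * ζ' = 16 * (θ * (ζ' * (8 * (V + 1)))) := by ring
    rw [h4, hζ'm] at h3
    linarith only [h3]
  obtain ⟨J₁, hJ₁⟩ := hnum b e hnear
  obtain ⟨Q', J₂, hJ₂⟩ := co_num (V := V) (Q := Q) (Ee := Ee) (Sm := Sm) hL hN1 hNQ hθ hθ16
    hθE hnear
  obtain ⟨Kn, hKn⟩ : ∃ Kn, Kn = max (max K' K₂) K'' := ⟨_, rfl⟩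
  obtain ⟨yy, hyy⟩ : ∃ yy : ℕ → ℝ, yy = fun k => if Gs k then Kt.X p / 64 else 0 := ⟨_, rfl⟩
  have yy0 : ∀ k, 0 ≤ yy k := fun k => by
    rw [hyy]
    beta_reduce
    split_ifs
    · positivity
    · exact le_rfl
  have yyX : ∀ k, yy k ≤ Kt.X p / 64 := fun k => by
    rw [hyy]
    beta_reduce
    split_ifs
    · exact le_rfl
    · positivity
  have hno : Bas S fun J F A => ∀ l < n₀ + 1, ¬ Gs l → ∀ B : F.Ω → Prop, Sub B A →
      η' * Pe F.p A ≤ Pe F.p B →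
      ∀ i ≤ M, ∀ j ≤ M, ∀ μ : ℕ, up ζ' J ≤ μ →
      μ ≤ 1 * up (msh (Kt.X p) N M) J → ∀ (e' : ℕ) (g' : ℕ → ℕ),
      (∀ k' < l, g' k' ≤ ⌊b i j k' * J⌋₊ + 4 * μ + ⌊yy k' * J⌋₊) →
      ⌊b i j l * J⌋₊ + V * μ ≤ g' l →
      g' l ≤ J → ¬ ChN F (Kt.cs p) (l + 1) (fun _ => Kn)
        (up ((Kt.y p).1 + (Kt.y p).2) J + i * up (msh (Kt.X p) N M) J + 4 * μ)
        (up (Kt.y p).1 J + j * up (msh (Kt.X p) N M) J + 4 * μ) e' g' B := by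
    refine Bas.all (n₀ + 1) fun l hl => ?_
    by_cases h : Gs l
    · exact ⟨1, one_pos, 0, fun J _ F A _ h' => absurd h h'⟩
    · refine Bas.mono 0 (Pool.LBK.Bas.ev (hL.no_sh (by omega) hN1 hNT hNC hζ'0 hζ'1 hεX
        hθx hnear (hP p) (hPW l hl h) (yy := yy) (fun k _ => yy0 k)
        (fun k _ => (yyX k).trans (by linarith only [hX])) (fun k' hk' a w h1 h2 h3 h4 => ?_) hV
        Kn) hη) fun J _ F A h3 _ => h3
      by_cases hk : Gs k'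
      · have h5 := pg k' (hGs k' hk) hk a w h1 h2 h3 h4
        have h6 := yyX k'
        linarith only [h5, h6, hX]
      · have h5 : yy k' = 0 := by
          rw [hyy]
          exact if_neg hk
        rw [h5, add_zero]
        exact hLβ p k' (by omega) hk a w (by linarith only [hL.win, h1, hX])
          (by linarith only [hL.dep, h2, h3, hX]) (by linarith only [hL.top, h4, hX])
  have hp : Bas S (fun _ F A => 0 < Pe F.p A) :=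
    ⟨1, one_pos, 0, fun J _ F A hA => hS.1 1 J F A hA⟩
  refine Bas.mono (max J₁ J₂) (Bas.and (Bas.and (ptm b e hnear) (pnfc b e hnear))
    (Bas.and hno hp)) ?_
  rintro J hJ F A ⟨⟨m1, m2⟩, hno, hA⟩ D hD lam' gam' _ k2 _ k4
  obtain ⟨-, -, -, -, -, -, -, -, -, c10⟩ := hJ₁ J ((le_max_left _ _).trans hJ)
  obtain ⟨d1, d2, d3, d4, d5, d6, d7, d8, d9, d10, d11⟩ := hJ₂ J ((le_max_right _ _).trans hJ)
  rw [← hζ'] at d4 d10
  have hWx : ∀ l, Gs l → Kt.Wco l K₂ S₂ p N M θ J F D A := fun l h => hW l h p N M θ J F D A hD.2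
  unfold KitP.Wco at hWx
  choose! gC pr UD UL hWy using hWx
  have hband := fun l (h : Gs l) => (hWy l h).1
  have hpr := fun l (h : Gs l) => (hWy l h).2.1
  have hCo := fun l (h : Gs l) => (hWy l h).2.2
  have hDo : D.Ok (Kt.cs p) (n₀ + 1) Kt.K K' s₁ sh (up ((Kt.y p).1 + (Kt.y p).2) J)
      (up (Kt.y p).1 J) (up (msh (Kt.X p) N M) J) M (fun i j => ⌊e i j * J⌋₊)
      (fun i j l => ⌊b i j l * J⌋₊) A := hD.1
  have hX3264 : ⌊Kt.X p / 64 * (J : ℝ)⌋₊ ≤ ⌊Kt.X p / 32 * (J : ℝ)⌋₊ := by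
    refine Nat.floor_le_floor (mul_le_mul_of_nonneg_right ?_ (Nat.cast_nonneg J))
    linarith only [hX]
  have hq0 := cond_nonneg F.isLaw.nonneg A True
  have hqB : ∀ ω, 0 < Pool.Agent.H49.Ent.cond F.p A True ω → A ω :=
    fun ω hω => Pool.PB.End.of_cond_pos hω
  have hbx : ∀ l₀, Gs l₀ → ∀ i ≤ M, ∀ j ≤ M, ∀ k < l₀, gC l₀ i j k ≤
      ⌊b i j k * J⌋₊ - sh (k + 1) + 3 * up (16 * θ * msh (Kt.X p) N M) J := by
    intro l₀ hG i hi j hj k hk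
    have hl₀ := hGs l₀ hG
    have h1 := (hband l₀ hG i hi j hj k (by omega)).1
    have h2 := (c10 i hi j hj k (by omega)).2
    have h3 := hSm (k + 1) (by omega)
    omega
  have hnr : ∀ l₀, Gs l₀ → ∀ i ≤ M, ∀ j ≤ M, ⌊b i j l₀ * J⌋₊ - sh (l₀ + 1) ≤
      gC l₀ i j l₀ + up (16 * θ * msh (Kt.X p) N M) J := by
    intro l₀ hG i hi j hj
    have hl₀ := hGs l₀ hG
    have h1 := (hband l₀ hG i hi j hj l₀ (by omega)).2
    have h2 := (c10 i hi j hj l₀ (by omega)).1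
    omega
  have hprg : ∀ l₀, Gs l₀ → ∀ i ≤ M, ∀ j ≤ M,
      ⌊b i j l₀ * J⌋₊ - sh (l₀ + 1) + ⌊Kt.X p / 64 * J⌋₊ ≤ pr l₀ := by
    intro l₀ hG i hi j hj
    have hl₀ := hGs l₀ hG
    have h1 := hpr l₀ hG i hi j hj
    have h2 := (c10 i hi j hj l₀ (by omega)).1
    omega
  refine ⟨m1 D hD, m2 D hD gam' (k2 _) (k4 (n₀ + 1) (by omega) le_rfl),
    gnG (Kt.nd p N M θ (Kt.grid K' s₁ sh p N M θ b e) F D) Gs pr UD UL, ?_, ?_⟩
  · exact co_gnG (Kt.rc p N M θ J F D) hR' hK' hDo hCo hqB (fun k hk => Nat.lt_succ_of_lt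
      (hGs k hk)) (le_max_right _ _) d3 cS hbx hnr fun l₀ hG i hi j hj =>
        (Nat.add_le_add_left d8 _).trans (hprg l₀ hG i hi j hj)
  · intro u u1 u2 u3 i hi j hj hnew
    obtain ⟨l, rfl⟩ : ∃ l, u = l + 1 := ⟨u - 1, by omega⟩
    have hi' : i ≤ M := hi
    have hj' : j ≤ M := hj
    have hl : l < n₀ + 1 := Nat.lt_of_succ_le u2
    have hll : ¬ Gs l := by
      rcases u3 with h1 | h1
      · have h2 : l + 1 = n₀ + 1 := h1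
        intro h3
        have h4 := hGs l h3
        omega
      · exact (hRl l).1 h1
    obtain ⟨B', e', b1, b2, b3⟩ := hch (Kt.rc p N M θ J F D) (Q' := Q') hR' hDo hCo hq0 hqB d2
      hi' hj'
      (by
        have h1 : j * up (msh (Kt.X p) N M) J ≤ M * up (msh (Kt.X p) N M) J :=
          Nat.mul_le_mul_right _ hj'
        omega) hl (fun k hk => Nat.lt_succ_of_lt (hGs k hk)) d6
      (fun l₀ hG => hbx l₀ hG i hi' j hj') (fun l₀ hG => hnr l₀ hG i hi' j hj')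
      (fun l₀ hG => (Nat.add_le_add_left d7 _).trans (hprg l₀ hG i hi' j hj'))
      (fun k k1 k2 => by
        have h1 := (d11 i hi' j hj' (k - 1) (by omega)).1
        have h2 := hSm k (by omega)
        rw [← hEe]
        omega) hnew
    have hPB' : η' * Pe F.p A ≤ Pe F.p B' := by
      have h5 := Pool.LBK.Pb_cond_sub b1 hA
      have h6 := mul_le_mul_of_nonneg_right b2 hA.le
      rw [h5] at h6
      exact h6
    have h1J := d11 i hi' j hj' l hl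
    have hEl : E ^ (l + 2) * up (16 * θ * msh (Kt.X p) N M) J ≤
        Ee * up (16 * θ * msh (Kt.X p) N M) J := by
      rw [hEe]
      exact Nat.mul_le_mul_right _ (Nat.pow_le_pow_right hE (by omega))
    have hSl := hSm (l + 1) (by omega)
    refine hno l hl hll B' b1 hPB' i hi' j hj' (up ζ' J) le_rfl (by rw [one_mul]; exact d4) e'
      _ (fun k' hk' => ?_) ?_ ?_ (b3.mono le_rfl (fun _ _ => le_of_eq hKn.symm)
        (Nat.le_add_right _ _) (Nat.le_add_right _ _) ?_ le_rfl)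
    · unfold gvT
      rw [if_pos hk']
      by_cases hk : Gs k'
      · rw [if_neg (fun h => (hRl k').1 h hk)]
        have h3 : ⌊yy k' * (J : ℝ)⌋₊ = ⌊Kt.X p / 64 * (J : ℝ)⌋₊ := by
          rw [hyy]
          beta_reduce
          rw [if_pos hk]
        rw [h3]
        show ⌊b i j (k' + 1 - 1) * (J : ℝ)⌋₊ - sh (k' + 1) + Q' * _ - _ ≤ _
        rw [Nat.add_sub_cancel]
        omega
      · rw [if_pos ((hRl k').2 hk)]
        show ⌊b i j (k' + 1 - 1) * (J : ℝ)⌋₊ - sh (k' + 1) - _ ≤ _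
        rw [Nat.add_sub_cancel]
        omega
    · unfold gvT
      rw [if_neg (lt_irrefl l)]
      omega
    · unfold gvT
      rw [if_neg (lt_irrefl l)]
      omega
    · have h1 : j * up (msh (Kt.X p) N M) J ≤ M * up (msh (Kt.X p) N M) J :=
        Nat.mul_le_mul_right _ hj'
      omega

/-- **The joint property of the cells with two labels with gain**, the other coordinates are
rough. -/
theorem ext_C2 (hI : MonoI I) {S : PCl m} (hS : TmH S) (Kt : KitP m Θ n₀)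
    (hml : ∀ p, ∀ l < n₀ + 1, Kt.ml p l = 1) {T' : ℝ}
    (fcel : ∀ ε' : ℝ, 0 < ε' → EvP I fun p =>
      CellL (n₀ + 1) (Kt.L p) ε' T' (Kt.y p) (Kt.X p) (Kt.la p) (Kt.ml p))
    {K' s₁ : ℕ} {sh : ℕ → ℕ} (hK' : 1 ≤ K') {l₀ l₁ K₂ S₂ : ℕ} (h01 : l₀ < l₁) (hl₁ : l₁ < n₀)
    (hW0 : ∀ p N M θ (J : ℕ) (F : Fam m J) (D : GDat F) (A : F.Ω → Prop),
      Kt.W p N M θ J F D A → Kt.Wco l₀ K₂ S₂ p N M θ J F D A)
    (hW1 : ∀ p N M θ (J : ℕ) (F : Fam m J) (D : GDat F) (A : F.Ω → Prop),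
      Kt.W p N M θ J F D A → Kt.Wco l₁ K₂ S₂ p N M θ J F D A)
    {be P : Θ → List (Fin m) × Fin m → ℝ → ℝ → ℝ}
    (hP : ∀ p, ThrOf (chsysB m none (be p)) S (P p))
    (hLβ : ∀ p, ∀ l < n₀, l ≠ l₀ → l ≠ l₁ → ∀ a w : ℝ, 0 ≤ w → w ≤ a → a ≤ 1 →
      Kt.L p l a w ≤ bet (be p) (Kt.cs p) l a w)
    (hgain0 : EvP I fun p => ∀ a w : ℝ, (Kt.y p).1 ≤ w → w ≤ (Kt.y p).1 + Kt.X p / 16 →
      (Kt.y p).1 + (Kt.y p).2 ≤ a → a ≤ (Kt.y p).1 + (Kt.y p).2 + Kt.X p / 16 →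
      Kt.L p l₀ a w + Kt.X p / 32 ≤ bet (be p) (Kt.cs p) l₀ a w)
    (hgain1 : EvP I fun p => ∀ a w : ℝ, (Kt.y p).1 ≤ w → w ≤ (Kt.y p).1 + Kt.X p / 16 →
      (Kt.y p).1 + (Kt.y p).2 ≤ a → a ≤ (Kt.y p).1 + (Kt.y p).2 + Kt.X p / 16 →
      Kt.L p l₁ a w + Kt.X p / 32 ≤ bet (be p) (Kt.cs p) l₁ a w)
    (fiso : ∀ l ≤ n₀, l ≠ l₀ → l ≠ l₁ → ∀ ε' : ℝ, 0 < ε' → EvP I fun p => ∀ z : ℝ × ℝ,
      dist z (Kt.y p) ≤ Kt.X p →
      Nw (bet (P p) (Kt.cs p) l) z ≤ Nw (Kt.L p l) z + ε' * Kt.X p)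
    {PB : ℕ → Prop} {x' : ℝ}
    (hnfc : ∃ C₄ : ℝ, ∀ C₁ ≥ C₄, ∀ B : ℕ, 1 ≤ B → PB B → ∀ M : ℕ, EvQ I fun N θ p =>
      Kt.FldN S K' s₁ sh M N θ p fun G J F D q => ∀ gam' : ℕ → ℝ, 0 ≤ gam' (n₀ + 1) →
        |gamS (n₀ + 1) (Kt.la p) (Kt.ml p) (n₀ + 1) - gam' (n₀ + 1)| * M ≤ 1 →
        NFc1 (Kt.nd p N M θ G F D) G.n (up G.ζ J) G.M B gam' x' C₁ q) :
    ∃ C₄ : ℝ, ∀ C₁ ≥ C₄, ∀ B : ℕ, 1 ≤ B → PB B → ∀ (M Q K'' : ℕ) (η' κ : ℝ), 0 < η' → 0 < κ →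
      EvQ I fun N θ p => Kt.FldN S K' s₁ sh M N θ p fun G J F D q =>
        (XP4 (max K' K₂) 1 (fun u => u ≠ l₀ + 1 ∧ u ≠ l₁ + 1) x').nb B (lamS (n₀ + 1) (Kt.ml p))
          (gamS (n₀ + 1) (Kt.la p) (Kt.ml p)) G.n J (up G.α J) (up G.ϖ J) (up G.ζ J) G.M Q K'' η'
          κ C₁ (Kt.nd p N M θ G F D) q := by
  refine ext_CG (K₂ := K₂) (S₂ := S₂) hI hS Kt hml fcel hK'
    (R := fun u => u ≠ l₀ + 1 ∧ u ≠ l₁ + 1) (Gs := fun l => l = l₀ ∨ l = l₁) (fun u u1 => ?_)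
    (fun l h => ?_) (fun l h => ?_) hP (fun p l hl h => ?_) (fun l h => ?_) (fun l hl h => ?_)
    hnfc
  · omega
  · rcases h with h | h <;> omega
  · rcases h with h | h
    · rw [h]
      exact hW0
    · rw [h]
      exact hW1
  · exact hLβ p l hl (fun h' => h (Or.inl h')) fun h' => h (Or.inr h')
  · rcases h with h | h
    · rw [h]
      exact hgain0
    · rw [h]
      exact hgain1
  · exact fiso l hl (fun h' => h (Or.inl h')) fun h' => h (Or.inr h')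

end Pool.STAT
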