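import Pool.Agent.H37.WIN.Rgh
import Pool.Agent.H89.STG.Def

/-!
# No better labels on the diagonal

`PkT.dia_rgh_ae`: near almost every good window the thresholds over the boxes of any sides are not
larger on the diagonal than the labels.
-/

set_option autoImplicit false

namespace Pool.PKG

open MeasureTheory Set Filter Topology
open Pool.Agent.H49.Ent Pool.Agent.H32.Dense Pool.STK Pool.KA Pool.KSAT Pool.K2S Pool.PB
open Pool.GEN Pool.S6C Pool.STAT Pool.CHT Pool.GRW Pool.ONE Pool.STA Pool.PBL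
open Pool.LBT (LSys ThrOf)
open Pool.LEV (Law)
open Pool.TOP (TopS)
open Pool.CHB (chsysB CtB)
open Pool.NMS (LeAt)
open Pool.QNT (affB_of)

variable {n : ℕ} {hn : 2 ≤ n} {S : PCl n} {P : ℝ → ℝ → ℝ} {rr : ℝ → ℝ}
  {P' : ℕ → List (Fin n) × Fin n → ℝ → ℝ → ℝ} {Λ : Finset (Fin n) → Fin n → ℝ → ℝ → ℝ}
  {PB : ℕ → List (Fin n) × Fin n → ℝ → ℝ → ℝ}

/-- Numbers: a threshold `PW` which is at most `PN` at a dense set of pairs, on the diagonal. -/
theorem diaR_num {PN PW : ℝ → ℝ → ℝ} {D : ℝ → ℝ} {g : ℝ} (hg0 : 0 < g) (hg1 : g < 1)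
    (hW : Law PW) (hN : Law PN) (hD : DifferentiableAt ℝ D g) (hDN : ∀ a, D a = PN a a)
    (hle : LeAt PN PW g) :
    Sml fun r d => ∀ a : ℝ, |a - g| ≤ 7 * r → PW a a ≤ D a + d := by
  intro e he
  obtain ⟨S, hS⟩ : ∃ S, S = |deriv D g| := ⟨_, rfl⟩
  have hS0 : 0 ≤ S := by
    rw [hS]
    exact abs_nonneg _
  obtain ⟨r₁, hr₁, h1⟩ := affB_of hD (M := 8) (e := e / 8) (by norm_num) (by linarith)
  obtain ⟨ρ₃, hρ₃, h3⟩ := hle
  obtain ⟨r₀, hr₀⟩ : ∃ r₀, r₀ = min (min r₁ (ρ₃ / 8)) (min (g / 8) ((1 - g) / 8)) := ⟨_, rfl⟩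
  have m1 : r₀ ≤ r₁ := by
    rw [hr₀]
    exact (min_le_left _ _).trans (min_le_left _ _)
  have m3 : r₀ ≤ ρ₃ / 8 := by
    rw [hr₀]
    exact (min_le_left _ _).trans (min_le_right _ _)
  have m5 : r₀ ≤ g / 8 := by
    rw [hr₀]
    exact (min_le_right _ _).trans (min_le_left _ _)
  have m6 : r₀ ≤ (1 - g) / 8 := by
    rw [hr₀]
    exact (min_le_right _ _).trans (min_le_right _ _)
  refine ⟨r₀, by
    rw [hr₀]
    exact lt_min (lt_min hr₁ (by linarith)) (lt_min (by linarith) (by linarith)),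
    fun r hr hr' a ha => ?_⟩
  obtain ⟨ε, hε⟩ : ∃ ε, ε = r * min (1 / 4) (e / (16 * (S + 1))) := ⟨_, rfl⟩
  have hmn : 0 < min (1 / 4) (e / (16 * (S + 1))) := lt_min (by norm_num) (by positivity)
  have hε0 : 0 < ε := by
    rw [hε]
    exact mul_pos hr hmn
  have hε1 : ε ≤ r / 4 := by
    rw [hε]
    have := mul_le_mul_of_nonneg_left (min_le_left (1 / 4 : ℝ) (e / (16 * (S + 1)))) hr.le
    linarith
  have hε2 : (S + 1) * ε ≤ e * r / 16 := by
    rw [hε]
    have h5 := mul_le_mul_of_nonneg_left (min_le_right (1 / 4 : ℝ) (e / (16 * (S + 1)))) hr.le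
    have h6 := mul_le_mul_of_nonneg_left h5 (by linarith : 0 ≤ S + 1)
    refine h6.trans (le_of_eq ?_)
    field_simp
  have ha' := abs_le.1 ha
  obtain ⟨a', w', k1, k2, k3, k4, k5, k6⟩ := h3 (a + 2 * ε) (a + ε) ε (by linarith)
    (by linarith) (by linarith) hε0
  have haa : a ≤ a' := by linarith
  have hww : a ≤ w' := by linarith
  have q1 : PW a a ≤ PW a' w' :=
    (hW.mono_a a a' a (by linarith) le_rfl haa (by linarith)).trans
      (hW.mono_w a' a w' (by linarith) hww k5 (by linarith))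
  have q2 : PN a' w' ≤ PN a' a' := hN.mono_w a' w' a' (by linarith) k5 le_rfl (by linarith)
  rw [← hDN] at q2
  have q4 := h1 r hr (hr'.trans_le m1) a' (by
    rw [abs_le]
    constructor <;> linarith)
  have q5 := h1 r hr (hr'.trans_le m1) a (by
    rw [abs_le]
    constructor <;> linarith)
  have q6 : deriv D g * (a' - a) ≤ S * (2 * ε) := by
    have h5 : deriv D g * (a' - a) ≤ |deriv D g| * (a' - a) :=
      mul_le_mul_of_nonneg_right (le_abs_self _) (by linarith)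
    rw [← hS] at h5
    exact h5.trans (mul_le_mul_of_nonneg_left (by linarith) hS0)
  have q7 := abs_le.1 q4
  have q8 := abs_le.1 q5
  have q9 : 0 ≤ e * r := by positivity
  show PW a a ≤ D a + e * r
  nlinarith

/-- **No better labels on the diagonal** near the good windows, for boxes of any sides. -/
theorem PkT.dia_rgh_ae (H : PkT hn S P rr P' Λ PB) (hTop : TopS n) (hF : FZX (n - 1))
    {be PW : ℕ → List (Fin n) × Fin n → ℝ → ℝ → ℝ}
    (hW : ∀ j, ThrOf (chsysB n none (be j)) S (PW j)) :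
    ∀ᵐ g : ℝ, ∀ o : Od n, g ∈ Gs P rr P' Λ o → ∀ i ≤ n - 1,
      Sml fun r d => DiaR hn P P' PW o i g r d := by
  filter_upwards [H.dia_all H.pble hTop hF] with g k1 o ho i hi
  obtain ⟨α, Q, c, F⟩ := H.toPk.fac hTop hF ho
  have h1 : dgN hn P P' o i = fun a => LvL hn P P' o i a a := funext fun a => dgN_LvL o hi a
  refine diaR_num F.g0 F.g1 ((hW o.2).law _) (H.lawL o i) ?_ (fun a => dgN_LvL o hi a)
    (H.leW hTop hF hW ho hi)
  rw [h1]
  exact (k1 o ho i hi).1

end Pool.PKG
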