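import Pool.Agent.H2.GEN.GnW
import Pool.Agent.H89.STG.Def

/-!
# Chains with gain at a small radius near a window

`PkT.gnW2_ae`: near almost every good window where the coordinate `l` is static of slope at least
three there is a chain with gain of the coordinate `l`, of radius at most `g + 27 / 64 r`, of a class
which does not depend on the scale.
-/

set_option autoImplicit false

namespace Pool.PKG

open MeasureTheory Set Filter Topology
open Pool.Agent.H49.Ent Pool.Agent.H32.Dense Pool.STK Pool.KA Pool.KSAT Pool.K2S Pool.PB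
open Pool.GEN Pool.S6C Pool.STAT Pool.CHT Pool.GRW Pool.ONE Pool.STA
open Pool.LBT (LSys ThrOf)
open Pool.LEV (Law)
open Pool.TOP (TopS)
open Pool.RTS (iso Diag)
open Pool.STR (ThinAt SteepAt StaAt StaD)
open Pool.ISO (PtD lvN)
open Pool.Z3 (PtC thin_one)
open Pool.PBL (ptC_of)

variable {n : ℕ} {hn : 2 ≤ n} {S : PCl n} {P : ℝ → ℝ → ℝ} {rr : ℝ → ℝ}
  {P' : ℕ → List (Fin n) × Fin n → ℝ → ℝ → ℝ} {Λ : Finset (Fin n) → Fin n → ℝ → ℝ → ℝ}
  {PB : ℕ → List (Fin n) × Fin n → ℝ → ℝ → ℝ}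

/-- Lower bound for a function with a derivative at least `c`. -/
theorem der_lowc {f : ℝ → ℝ} {g c : ℝ} (hd : DifferentiableAt ℝ f g) (h2 : c ≤ deriv f g) {e : ℝ}
    (he : 0 < e) : ∃ r₀ : ℝ, 0 < r₀ ∧ ∀ x : ℝ, 0 ≤ x → x < r₀ →
      f g + c * x - e * x ≤ f (g + x) := by
  have h3 := hasDerivAt_iff_isLittleO.1 hd.hasDerivAt
  have h4 := h3.def he
  rw [Metric.eventually_nhds_iff] at h4
  obtain ⟨r₀, hr₀, h5⟩ := h4
  refine ⟨r₀, hr₀, fun x hx hx' => ?_⟩
  have h6 := h5 (y := g + x) (by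
    rw [Real.dist_eq, add_sub_cancel_left, abs_of_nonneg hx]
    exact hx')
  rw [add_sub_cancel_left, Real.norm_eq_abs, Real.norm_eq_abs, abs_of_nonneg hx, smul_eq_mul] at h6
  have h7 := (abs_le.1 h6).1
  have h8 : c * x ≤ x * deriv f g := by
    rw [mul_comm]
    exact mul_le_mul_of_nonneg_left h2 hx
  linarith

/-- **Chains with gain at a small radius near a window.** -/
theorem PkT.gnW2_ae (H : PkT hn S P rr P' Λ PB) (hTop : TopS n) (hF : FZX (n - 1)) :
    ∀ᵐ g : ℝ, ∀ o : Od n, g ∈ Gs P rr P' Λ o → ∀ l < n - 1,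
      StaAt (LvL hn P P' o l) g → 3 ≤ slN hn P P' o l g →
      ∃ (D : ℕ) (r₀ : ℝ), 0 < r₀ ∧ ∀ r : ℝ, 0 < r → r < r₀ → GnW2 hn S P P' o D l g r := by
  filter_upwards [H.toPk.unif_ae hTop hF, H.dia_all H.pble hTop hF] with g hu hdia o ho l hl hsta hsl
  obtain ⟨E, c, hE, hroom, h1⟩ := hu o ho
  obtain ⟨vs, e, he0, -, h2⟩ := h1 1 one_pos
  obtain ⟨S₀, s₁, hS₀, hs₁, h3⟩ := h2 (1 / 64) (1 / 128) (by norm_num) (by norm_num)
  obtain ⟨α, Q, c', F⟩ := H.toPk.fac hTop hF ho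
  have hg0 := F.g0
  have hg1 := F.g1
  obtain ⟨D, hD1, hT⟩ := thin_one (n - 1) S₀ (by omega) hS₀
  -- the diagonal
  have hdl := (hdia o ho l hl.le).1
  have hdl' : DifferentiableAt ℝ (dgN hn P P' o l) g := by
    have : dgN hn P P' o l = fun a => LvL hn P P' o l a a := funext fun a => dgN_lvl_lt o hl a
    rw [this]
    exact hdl
  obtain ⟨r₁, hr₁, hlow⟩ := der_lowc hdl' hsl (e := 1 / 16) (by norm_num)
  -- the scales
  obtain ⟨r₃, hr₃, hst⟩ := hsta (1 / 64) (by norm_num)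
  obtain ⟨r₀, hr₀⟩ : ∃ r₀, r₀ = min (min s₁ (min r₁ r₃)) (min (g / 4) (1 - g)) := ⟨_, rfl⟩
  have q1 : r₀ ≤ s₁ := by rw [hr₀]; exact (min_le_left _ _).trans (min_le_left _ _)
  have q2 : r₀ ≤ r₁ := by
    rw [hr₀]; exact (min_le_left _ _).trans ((min_le_right _ _).trans (min_le_left _ _))
  have q4 : r₀ ≤ r₃ := by
    rw [hr₀]
    exact (min_le_left _ _).trans ((min_le_right _ _).trans (min_le_right _ _))
  have q6 : r₀ ≤ g / 4 := by rw [hr₀]; exact (min_le_right _ _).trans (min_le_left _ _)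
  have q7 : r₀ ≤ 1 - g := by rw [hr₀]; exact (min_le_right _ _).trans (min_le_right _ _)
  refine ⟨D, r₀, ?_, fun r hr hrr => ?_⟩
  · rw [hr₀]
    exact lt_min (lt_min hs₁ (lt_min hr₁ hr₃)) (lt_min (by linarith) (by linarith))
  -- the pair
  have h4 := h3 r 0 (27 / 64 * r) hr (by linarith) le_rfl (by linarith) (by linarith)
  obtain ⟨w, ⟨hw1, hw2⟩, hw⟩ : ∃ w ∈ Set.Icc (g - 1 / 64 * r) g, w ∉ {w : ℝ | |w - g| ≤ 1 / 64 * r ∧
      ¬ ∃ (ρ : ℝ) (Q' : Set ℝ),
        PtD S (P' o.2) (tht o.2) (cc hn o.1.1) (n - 1) P (w + 27 / 64 * r) (w + 0) ρ S₀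
          (fun _ => vs) (fun _ => e) (fun _ => e) (fun _ => E) (fun _ => 1 - c) Q'} := by
    by_contra hcon
    have h5 : volume (Set.Icc (g - 1 / 64 * r) g) ≤ ENNReal.ofReal (1 / 128 * r) :=
      (measure_mono fun w hw => by_contra fun h => hcon ⟨w, hw, h⟩).trans h4
    rw [Real.volume_Icc] at h5
    have h6 := (ENNReal.ofReal_le_ofReal_iff (by linarith)).1 h5
    linarith
  have h5 : |w - g| ≤ 1 / 64 * r := by
    rw [abs_le]
    constructor <;> linarith
  simp only [Set.mem_ofPred_eq, not_and, not_not] at hw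
  obtain ⟨ρ, Q', h6⟩ := hw h5
  rw [add_zero] at h6
  obtain ⟨a, ha⟩ : ∃ a, a = w + 27 / 64 * r := ⟨_, rfl⟩
  rw [← ha] at h6
  have hσ : (0 : ℝ) < r / 64 := by linarith
  obtain ⟨K₁, dT, hK₁, hdT, bT, -⟩ := hT (H.cht o.2) (tht_pos _) H.tmh (cc_inj1 hn _)
    (ptC_of h6) 0 1 (r / 64) one_pos hσ
  have hlaw := fun k => H.lawL o k
  refine ⟨a, w, e, fun k => bet (P' o.2) (cc hn o.1.1) k a w - dT k, K₁, hK₁, ?_, ?_⟩
  · refine ⟨by linarith, by linarith, hw2, fun k hk => ?_, fun k hk => ?_, ?_⟩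
    · show r / 4 ≤ bet (P' o.2) (cc hn o.1.1) k a w - dT k
      have h7 := (H.cht o.2).low ((List.range k).map (cc hn o.1.1), cc hn o.1.1 k) a w
        h6.w0.le h6.wa h6.a1.le
      have h8 := (hdT k (by omega)).2.1
      change a ≤ bet (P' o.2) (cc hn o.1.1) k a w at h7
      linarith
    · show bet (P' o.2) (cc hn o.1.1) k a w - dT k ≤ dgN hn P P' o k a
      have k1 : k < n - 1 := by omega
      have h8 := (hdT k (by omega)).1
      have h9 := (hlaw k).mono_w a w a h6.w0.le h6.wa le_rfl h6.a1.le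
      rw [LvL_lt o k1, ← dgN_lvl_lt o k1] at h9
      change bet (P' o.2) (cc hn o.1.1) k a w ≤ _ at h9
      linarith
    · show dgN hn P P' o l g + r + r / 8 ≤ bet (P' o.2) (cc hn o.1.1) l a w - dT l
      have h7 := hst r hr (hrr.trans_le q4) a w (by linarith) (by linarith) (by linarith)
      rw [← dgN_lvl_lt o hl, LvL_lt o hl a w] at h7
      have h8 := (hdT l hl).2.1
      have h9 := hlow (a - g) (by linarith) (by linarith)
      rw [add_sub_cancel] at h9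
      linarith
  · refine Bas.mono 0 bT ?_
    rintro J - F' A ⟨B, h7, h8, h9⟩
    exact ⟨B, h7, h8, h9.mono (by omega) (fun _ _ => le_rfl) le_rfl le_rfl (by linarith) le_rfl⟩

end Pool.PKG
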